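import Mathlib

set_option autoImplicit false

/-!
# Sets of integers in which few pairs have a large common divisor have many `k`-fold products

Let `k ≥ 1` and `ε > 0`. There is `M` such that for every finite set `A` of nonzero integers, all
`G ≥ 1` and `K ≥ 1`:

1. (pointwise) if every `a ∈ A` has at most `K` elements `c ∈ A` with `gcd (a, c) > G`, then EVERY
   nonzero integer has at most `M K ^ (k - 1) G ^ ε` factorisations `a 1 * ... * a k` with `a i ∈ A`,
   so that every set `H` of `k`-tuples of elements of `A`, however sparse, has at least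
   `|H| / (M K ^ (k - 1) G ^ ε)` different products;
2. (on average) if `P` is the number of pairs `(a, c)` of elements of `A` with `a = c` or
   `gcd (a, c) > G`, then `|A| ^ (2 k - 1) ≤ M P ^ (k - 1) G ^ ε |A ^ k|`, where `A ^ k` is the set of
   the `k`-fold products.

With `G = |A| ^ C` the power of `G` is harmless: if `A` has at most `|A| ^ (1 + δ)` pairs with common
divisor above `|A| ^ C` then `|A ^ k| ≥ c |A| ^ (k - (k - 1) δ - ε)`.

Proof of 1. Compare a factorisation `a` of `u` with a fixed one, `c`. As `a i` divides the product of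
the `gcd (a i, c j)`, either `|a i| ≤ G ^ k` or `gcd (a i, c j) > G` for some `j`. In the second case
there are at most `k K` choices of `a i`; if the large factors are chosen, the product of the small
ones is a known integer below `G ^ (k ^ 2)`, which has few divisors; if all are large, the last one
is determined by the others.
-/

namespace Pool.Agent.Results.MP_120218_co.FewLargeGcds

open Finset

lemma divisor_bound (δ : ℝ) (hδ : 0 < δ) :
    ∃ C : ℝ, 0 < C ∧ ∀ n : ℕ, n ≠ 0 → ((n.divisors.card : ℕ) : ℝ) ≤ C * (n : ℝ) ^ δ := by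
  have hlog : 0 < Real.log 2 := Real.log_pos (by norm_num)
  have hδl : 0 < δ * Real.log 2 := mul_pos hδ hlog
  set M : ℝ := max 1 (1 / (δ * Real.log 2)) with hM
  have hM1 : 1 ≤ M := le_max_left _ _
  have hM2 : 1 ≤ M * (δ * Real.log 2) := by
    have : 1 / (δ * Real.log 2) ≤ M := le_max_right _ _
    calc (1 : ℝ) = 1 / (δ * Real.log 2) * (δ * Real.log 2) := by
          field_simp
      _ ≤ M * (δ * Real.log 2) := mul_le_mul_of_nonneg_right this hδl.le
  set K : ℕ := ⌈(2 : ℝ) ^ (1 / δ)⌉₊ with hK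
  have hKle : (2 : ℝ) ^ (1 / δ) ≤ (K : ℝ) := Nat.le_ceil _
  refine ⟨M ^ K, by positivity, ?_⟩
  intro n hn
  have hbase : ∀ p ∈ n.primeFactors, (((n.factorization p + 1 : ℕ)) : ℝ) ≤
      (if p < K then M else 1) * (((p : ℝ) ^ (n.factorization p)) ^ δ) := by
    intro p hp
    have hpp : p.Prime := Nat.prime_of_mem_primeFactors hp
    set a := n.factorization p with ha
    have hp2 : (2 : ℝ) ≤ (p : ℝ) := by exact_mod_cast hpp.two_le
    have hp0 : (0 : ℝ) ≤ (p : ℝ) := by positivity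
    have hpow : (((p : ℝ) ^ a) ^ δ) = ((p : ℝ) ^ δ) ^ a := by
      rw [← Real.rpow_natCast (p : ℝ) a, ← Real.rpow_mul hp0, ← Real.rpow_natCast ((p : ℝ) ^ δ) a,
        ← Real.rpow_mul hp0, mul_comm]
    rw [hpow]
    split_ifs with hlt
    · have h1 : (2 : ℝ) ^ δ ≤ (p : ℝ) ^ δ := Real.rpow_le_rpow (by norm_num) hp2 hδ.le
      have h2 : ((2 : ℝ) ^ δ) ^ a ≤ ((p : ℝ) ^ δ) ^ a :=
        pow_le_pow_left₀ (by positivity) h1 a
      have h3 : 1 + (a : ℝ) * (δ * Real.log 2) ≤ ((2 : ℝ) ^ δ) ^ a := by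
        have : ((2 : ℝ) ^ δ) ^ a = Real.exp ((a : ℝ) * (δ * Real.log 2)) := by
          rw [← Real.rpow_natCast, ← Real.rpow_mul (by norm_num), Real.rpow_def_of_pos (by norm_num)]
          congr 1; ring
        rw [this]
        have := Real.add_one_le_exp ((a : ℝ) * (δ * Real.log 2))
        linarith
      have h4 : (((a + 1 : ℕ)) : ℝ) ≤ M * (1 + (a : ℝ) * (δ * Real.log 2)) := by
        push_cast
        have ha0 : (0 : ℝ) ≤ (a : ℝ) := by positivity
        nlinarith [mul_le_mul_of_nonneg_left hM2 ha0]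
      calc (((a + 1 : ℕ)) : ℝ) ≤ M * (1 + (a : ℝ) * (δ * Real.log 2)) := h4
        _ ≤ M * (((p : ℝ) ^ δ) ^ a) :=
          mul_le_mul_of_nonneg_left (h3.trans h2) (by linarith)
    · have hKp : (K : ℝ) ≤ (p : ℝ) := by exact_mod_cast not_lt.mp hlt
      have h1 : (2 : ℝ) ≤ (p : ℝ) ^ δ := by
        have h5 : ((2 : ℝ) ^ (1 / δ)) ^ δ ≤ (p : ℝ) ^ δ :=
          Real.rpow_le_rpow (by positivity) (hKle.trans hKp) hδ.le
        have h6 : ((2 : ℝ) ^ (1 / δ)) ^ δ = 2 := by
          rw [← Real.rpow_mul (by norm_num)]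
          rw [one_div, inv_mul_cancel₀ hδ.ne', Real.rpow_one]
        rwa [h6] at h5
      have h2 : (2 : ℝ) ^ a ≤ ((p : ℝ) ^ δ) ^ a := pow_le_pow_left₀ (by norm_num) h1 a
      have h3 : (((a + 1 : ℕ)) : ℝ) ≤ (2 : ℝ) ^ a := by
        have : a + 1 ≤ 2 ^ a := Nat.lt_two_pow_self
        exact_mod_cast this
      rw [one_mul]
      exact h3.trans h2
  have hn' : (n : ℝ) ^ δ = ∏ p ∈ n.primeFactors, (((p : ℝ) ^ (n.factorization p)) ^ δ) := by
    rw [Real.finsetProd_rpow _ _ (fun i _ => by positivity)]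
    congr 1
    have := Nat.prod_factorization_pow_eq_self hn
    conv_lhs => rw [← this]
    rw [Finsupp.prod]
    push_cast
    rfl
  rw [Nat.card_divisors hn]
  push_cast
  calc (∏ p ∈ n.primeFactors, ((n.factorization p : ℝ) + 1))
      ≤ ∏ p ∈ n.primeFactors, ((if p < K then M else 1) * (((p : ℝ) ^ (n.factorization p)) ^ δ)) := by
        apply Finset.prod_le_prod
        · intro i _; positivity
        · intro i hi
          have := hbase i hi
          push_cast at this
          exact this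
    _ = (∏ p ∈ n.primeFactors, (if p < K then M else 1)) * (n : ℝ) ^ δ := by
        rw [Finset.prod_mul_distrib, hn']
    _ ≤ M ^ K * (n : ℝ) ^ δ := by
        apply mul_le_mul_of_nonneg_right _ (by positivity)
        rw [Finset.prod_ite, Finset.prod_const, Finset.prod_const_one, mul_one]
        apply pow_le_pow_right₀ hM1
        calc (n.primeFactors.filter (fun p => p < K)).card ≤ (Finset.range K).card := by
              apply Finset.card_le_card
              intro x hx
              simp only [Finset.mem_filter] at hx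
              exact Finset.mem_range.mpr hx.2
          _ = K := Finset.card_range K


/-- the set of the factorisations of `u` with all factors in `A` -/
def facs (k : ℕ) (A : Finset ℤ) (u : ℤ) : Finset (Fin k → ℤ) :=
  (Fintype.piFinset (fun _ : Fin k => A)).filter (fun a => ∏ i, a i = u)

lemma mem_facs {k : ℕ} {A : Finset ℤ} {u : ℤ} {a : Fin k → ℤ} :
    a ∈ facs k A u ↔ (∀ i, a i ∈ A) ∧ ∏ i, a i = u := by
  simp [facs, Fintype.mem_piFinset]

/-- a divisor of a product divides the product of the gcds -/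
lemma dvd_prod_gcd_nat {ι : Type*} (s : Finset ι) (b : ι → ℕ) (a : ℕ) :
    ∀ m : ℕ, a ∣ m * ∏ j ∈ s, b j → a ∣ m * ∏ j ∈ s, Nat.gcd a (b j) := by
  classical
  induction s using Finset.induction_on with
  | empty => intro m h; simpa using h
  | insert j s hj ih =>
    intro m h
    rw [Finset.prod_insert hj] at h ⊢
    have h1 : a ∣ b j * (m * ∏ j ∈ s, b j) := by
      have : b j * (m * ∏ j ∈ s, b j) = m * (b j * ∏ j ∈ s, b j) := by ring
      rw [this]; exact h
    have h2 : a ∣ Nat.gcd a (b j) * (m * ∏ j ∈ s, b j) := Nat.dvd_gcd_mul_iff_dvd_mul.mpr h1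
    have h3 := ih (m * Nat.gcd a (b j)) (by
      have : m * Nat.gcd a (b j) * ∏ j ∈ s, b j = Nat.gcd a (b j) * (m * ∏ j ∈ s, b j) := by ring
      rw [this]; exact h2)
    have : m * (Nat.gcd a (b j) * ∏ j ∈ s, Nat.gcd a (b j))
        = m * Nat.gcd a (b j) * ∏ j ∈ s, Nat.gcd a (b j) := by ring
    rw [this]; exact h3

lemma natAbs_prod {ι : Type*} (s : Finset ι) (c : ι → ℤ) :
    (∏ j ∈ s, c j).natAbs = ∏ j ∈ s, (c j).natAbs := by
  classical
  induction s using Finset.induction_on with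
  | empty => simp
  | insert j s hj ih => rw [Finset.prod_insert hj, Finset.prod_insert hj, Int.natAbs_mul, ih]

lemma dvd_prod_gcd {ι : Type*} (s : Finset ι) (c : ι → ℤ) (x : ℤ) (h : x ∣ ∏ j ∈ s, c j) :
    x.natAbs ∣ ∏ j ∈ s, Int.gcd x (c j) := by
  classical
  have h1 : x.natAbs ∣ ∏ j ∈ s, (c j).natAbs := by
    have := Int.natAbs_dvd_natAbs.mpr h
    rwa [natAbs_prod] at this
  have := dvd_prod_gcd_nat s (fun j => (c j).natAbs) x.natAbs 1 (by simpa using h1)
  simpa [Int.gcd] using this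

/-- small or close to the reference factorisation -/
lemma small_or_close (k : ℕ) (c : Fin k → ℤ) (x : ℤ) (G : ℕ) (hc : ∏ j, c j ≠ 0)
    (h : x ∣ ∏ j, c j) : x.natAbs ≤ G ^ k ∨ ∃ j, G < Int.gcd (c j) x := by
  by_contra hcon
  push Not at hcon
  obtain ⟨h1, h2⟩ := hcon
  have h3 := dvd_prod_gcd Finset.univ c x h
  have h4 : ∏ j, Int.gcd x (c j) ≤ G ^ k := by
    calc ∏ j, Int.gcd x (c j) ≤ ∏ _j : Fin k, G :=
          Finset.prod_le_prod' (fun j _ => by rw [Int.gcd_comm]; exact h2 j)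
      _ = G ^ k := by simp
  have h5 : 0 < ∏ j, Int.gcd x (c j) := by
    apply Finset.prod_pos
    intro j hj
    apply Nat.pos_of_ne_zero
    intro h0
    rw [Int.gcd_eq_zero_iff] at h0
    exact hc (Finset.prod_eq_zero hj h0.2)
  have h6 := Nat.le_of_dvd h5 h3
  omega

/-- factorisations whose set `S` of large factors is given: not all factors are large -/
lemma card_RS (k : ℕ) (A N : Finset ℤ) (u : ℤ) (hu : u ≠ 0) (B L n : ℕ) (hB : 1 ≤ B)
    (hn : N.card ≤ n) (hn1 : 1 ≤ n) (hL : ∀ m : ℕ, 1 ≤ m → m ≤ B ^ k → m.divisors.card ≤ L)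
    (S : Finset (Fin k)) (hS : S.card < k) :
    ((facs k A u).filter (fun a => (∀ i ∈ S, a i ∈ N) ∧ ∀ i ∉ S, (a i).natAbs ≤ B)).card
      ≤ (2 * L) ^ k * n ^ (k - 1) := by
  classical
  have hL1 : 1 ≤ L := by
    have := hL 1 le_rfl (Nat.one_le_pow _ _ hB)
    simpa using this
  set R := (facs k A u).filter (fun a => (∀ i ∈ S, a i ∈ N) ∧ ∀ i ∉ S, (a i).natAbs ≤ B) with hR
  set f : (Fin k → ℤ) → (Fin k → ℤ) := fun a i => if i ∈ S then a i else 1 with hf
  have himg : (R.image f).card ≤ n ^ (k - 1) := by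
    have hsub : R.image f ⊆ Fintype.piFinset (fun i => if i ∈ S then N else {1}) := by
      intro x hx
      obtain ⟨a, ha, rfl⟩ := Finset.mem_image.mp hx
      rw [Fintype.mem_piFinset]
      intro i
      by_cases hi : i ∈ S
      · simp only [hf, hi, if_true]
        exact (Finset.mem_filter.mp ha).2.1 i hi
      · simp [hf, hi]
    refine (Finset.card_le_card hsub).trans ?_
    rw [Fintype.card_piFinset]
    have : ∀ i, ((if i ∈ S then N else {1} : Finset ℤ)).card = if i ∈ S then N.card else 1 := by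
      intro i
      split_ifs <;> simp
    simp_rw [this]
    rw [Finset.prod_ite, Finset.prod_const_one, mul_one, Finset.prod_const]
    have hc : (Finset.univ.filter (fun i => i ∈ S)).card = S.card := by
      congr 1
      ext i; simp
    rw [hc]
    calc N.card ^ S.card ≤ n ^ S.card := Nat.pow_le_pow_left hn _
      _ ≤ n ^ (k - 1) := Nat.pow_le_pow_right hn1 (by omega)
  have hfib : ∀ x ∈ R.image f, (R.filter (fun a => f a = x)).card ≤ (2 * L) ^ k := by
    intro x hx
    obtain ⟨a0, ha0, hxa⟩ := Finset.mem_image.mp hx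
    have hsplit : ∀ a : Fin k → ℤ, ∏ i, a i = (∏ i ∈ S, a i) * ∏ i ∈ Sᶜ, a i := by
      intro a
      exact (Finset.prod_mul_prod_compl S a).symm
    set v : ℤ := ∏ i ∈ Sᶜ, a0 i with hv
    have ha0' := Finset.mem_filter.mp ha0
    have ha0f := mem_facs.mp ha0'.1
    have hu0 : (∏ i ∈ S, a0 i) * v = u := by rw [hv, ← hsplit]; exact ha0f.2
    have hv0 : v ≠ 0 := by
      intro h0
      rw [h0, mul_zero] at hu0
      exact hu hu0.symm
    have hp0 : (∏ i ∈ S, a0 i) ≠ 0 := by
      intro h0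
      rw [h0, zero_mul] at hu0
      exact hu hu0.symm
    have hvB : v.natAbs ≤ B ^ k := by
      rw [hv, natAbs_prod]
      calc ∏ i ∈ Sᶜ, (a0 i).natAbs ≤ ∏ _i ∈ Sᶜ, B :=
            Finset.prod_le_prod' (fun i hi => ha0'.2.2 i (Finset.mem_compl.mp hi))
        _ = B ^ (Sᶜ).card := by simp
        _ ≤ B ^ k := by
            apply Nat.pow_le_pow_right hB
            exact (Finset.card_le_univ _).trans (by simp)
    have hvd := hL v.natAbs (Nat.one_le_iff_ne_zero.mpr (Int.natAbs_ne_zero.mpr hv0)) hvB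
    set T : Finset ℤ := v.natAbs.divisors.image (fun d : ℕ => (d : ℤ)) ∪
      v.natAbs.divisors.image (fun d : ℕ => -(d : ℤ)) with hT
    have hTc : T.card ≤ 2 * L := by
      calc T.card ≤ _ := Finset.card_union_le _ _
        _ ≤ v.natAbs.divisors.card + v.natAbs.divisors.card :=
            add_le_add Finset.card_image_le Finset.card_image_le
        _ ≤ 2 * L := by omega
    have hTm : ∀ z : ℤ, z ∣ v → z ∈ T := by
      intro z hz
      have h1 : z.natAbs ∈ v.natAbs.divisors :=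
        Nat.mem_divisors.mpr ⟨Int.natAbs_dvd_natAbs.mpr hz, Int.natAbs_ne_zero.mpr hv0⟩
      rw [hT, Finset.mem_union, Finset.mem_image, Finset.mem_image]
      rcases Int.natAbs_eq z with h | h
      · left; exact ⟨z.natAbs, h1, h.symm⟩
      · right; exact ⟨z.natAbs, h1, h.symm⟩
    have hsub : R.filter (fun a => f a = x) ⊆
        Fintype.piFinset (fun i => if i ∈ S then {x i} else T) := by
      intro a ha
      obtain ⟨haR, hax⟩ := Finset.mem_filter.mp ha
      obtain ⟨haf, haS, haB⟩ := Finset.mem_filter.mp haR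
      have haf' := mem_facs.mp haf
      have hS1 : ∀ i ∈ S, a i = a0 i := by
        intro i hi
        have h1 : f a i = f a0 i := by rw [hax, hxa]
        simpa [hf, hi] using h1
      have hprodv : ∏ i ∈ Sᶜ, a i = v := by
        have h1 : (∏ i ∈ S, a0 i) * ∏ i ∈ Sᶜ, a i = (∏ i ∈ S, a0 i) * v := by
          rw [hu0, ← haf'.2, hsplit a]
          congr 1
          exact Finset.prod_congr rfl (fun i hi => (hS1 i hi).symm)
        exact mul_left_cancel₀ hp0 h1
      rw [Fintype.mem_piFinset]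
      intro i
      by_cases hi : i ∈ S
      · simp only [hi, if_true, Finset.mem_singleton]
        rw [← hax]
        simp [hf, hi]
      · simp only [hi, if_false]
        apply hTm
        rw [← hprodv]
        exact Finset.dvd_prod_of_mem _ (Finset.mem_compl.mpr hi)
    refine (Finset.card_le_card hsub).trans ?_
    rw [Fintype.card_piFinset]
    calc ∏ i : Fin k, ((if i ∈ S then {x i} else T : Finset ℤ)).card
        ≤ ∏ _i : Fin k, (2 * L) := by
          apply Finset.prod_le_prod'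
          intro i _
          split_ifs
          · simp; omega
          · exact hTc
      _ = (2 * L) ^ k := by simp
  have := Finset.card_le_mul_card_image (f := f) (s := R) ((2 * L) ^ k) hfib
  exact this.trans (Nat.mul_le_mul_left _ himg)

/-- factorisations all of whose factors are in `N` -/
lemma card_Runiv (k : ℕ) (hk : 1 ≤ k) (A N : Finset ℤ) (u : ℤ) (hu : u ≠ 0) (n : ℕ)
    (hn : N.card ≤ n) :
    ((facs k A u).filter (fun a => ∀ i, a i ∈ N)).card ≤ n ^ (k - 1) := by
  classical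
  set i0 : Fin k := ⟨0, hk⟩ with hi0
  set R := (facs k A u).filter (fun a => ∀ i, a i ∈ N) with hR
  set f : (Fin k → ℤ) → (Fin k → ℤ) := fun a i => if i = i0 then 1 else a i with hf
  have hinj : Set.InjOn f (R : Set (Fin k → ℤ)) := by
    intro a ha b hb hab
    have ha' := mem_facs.mp (Finset.mem_filter.mp (Finset.mem_coe.mp ha)).1
    have hb' := mem_facs.mp (Finset.mem_filter.mp (Finset.mem_coe.mp hb)).1
    have hne : ∀ i, i ≠ i0 → a i = b i := by
      intro i hi
      have h1 : f a i = f b i := by rw [hab]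
      simpa [hf, hi] using h1
    have hsp : ∀ a : Fin k → ℤ, ∏ i, a i = a i0 * ∏ i ∈ Finset.univ.erase i0, a i := by
      intro a
      exact (Finset.mul_prod_erase Finset.univ a (Finset.mem_univ i0)).symm
    have hpe : ∏ i ∈ Finset.univ.erase i0, a i = ∏ i ∈ Finset.univ.erase i0, b i :=
      Finset.prod_congr rfl (fun i hi => hne i (Finset.ne_of_mem_erase hi))
    have hp0 : ∏ i ∈ Finset.univ.erase i0, b i ≠ 0 := by
      intro h0
      have := hb'.2
      rw [hsp b, h0, mul_zero] at this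
      exact hu this.symm
    have h1 : a i0 * ∏ i ∈ Finset.univ.erase i0, b i = b i0 * ∏ i ∈ Finset.univ.erase i0, b i := by
      rw [← hsp b, hb'.2, ← hpe, ← hsp a, ha'.2]
    have h2 := mul_right_cancel₀ hp0 h1
    funext i
    by_cases hi : i = i0
    · rw [hi]; exact h2
    · exact hne i hi
  have hcard : R.card = (R.image f).card := (Finset.card_image_of_injOn hinj).symm
  rw [hcard]
  have hsub : R.image f ⊆ Fintype.piFinset (fun i => if i = i0 then {1} else N) := by
    intro x hx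
    obtain ⟨a, ha, rfl⟩ := Finset.mem_image.mp hx
    rw [Fintype.mem_piFinset]
    intro i
    by_cases hi : i = i0
    · simp [hf, hi]
    · simp only [hf, hi, if_false]
      exact (Finset.mem_filter.mp ha).2 i
  refine (Finset.card_le_card hsub).trans ?_
  rw [Fintype.card_piFinset]
  have : ∀ i, ((if i = i0 then {1} else N : Finset ℤ)).card = if i = i0 then 1 else N.card := by
    intro i
    split_ifs <;> simp
  simp_rw [this]
  rw [Finset.prod_ite, Finset.prod_const_one, one_mul, Finset.prod_const]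
  have hc : (Finset.univ.filter (fun i => ¬ i = i0)).card = k - 1 := by
    have he : Finset.univ.filter (fun i => ¬ i = i0) = Finset.univ.erase i0 := by
      ext i; simp
    rw [he, Finset.card_erase_of_mem (Finset.mem_univ _)]
    simp
  rw [hc]
  exact Nat.pow_le_pow_left hn _

/-- the pointwise bound, with natural numbers -/
lemma card_facs_le (k : ℕ) (hk : 1 ≤ k) (A : Finset ℤ) (u : ℤ) (hu : u ≠ 0) (G K L : ℕ)
    (hG : 1 ≤ G) (hK : 1 ≤ K)
    (hA : ∀ a ∈ A, (A.filter (fun c => G < Int.gcd a c)).card ≤ K)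
    (hL : ∀ m : ℕ, 1 ≤ m → m ≤ (G ^ k) ^ k → m.divisors.card ≤ L) :
    (facs k A u).card ≤ 2 ^ k * ((2 * L) ^ k * (k * K) ^ (k - 1)) := by
  classical
  have hB : 1 ≤ G ^ k := Nat.one_le_pow _ _ hG
  have hL1 : 1 ≤ L := by
    have := hL 1 le_rfl (Nat.one_le_pow _ _ hB)
    simpa using this
  rcases (facs k A u).eq_empty_or_nonempty with he | ⟨c, hc⟩
  · rw [he]; simp
  have hc' := mem_facs.mp hc
  set N : Finset ℤ := Finset.univ.biUnion (fun j : Fin k => A.filter (fun x => G < Int.gcd (c j) x))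
    with hN
  have hNc : N.card ≤ k * K := by
    refine Finset.card_biUnion_le.trans ?_
    calc ∑ j : Fin k, (A.filter (fun x => G < Int.gcd (c j) x)).card ≤ ∑ _j : Fin k, K :=
          Finset.sum_le_sum (fun j _ => hA (c j) (hc'.1 j))
      _ = k * K := by simp
  have hkK : 1 ≤ k * K := Nat.mul_pos hk hK
  have hcov : facs k A u ⊆ (Finset.univ : Finset (Finset (Fin k))).biUnion (fun S =>
      (facs k A u).filter (fun a => (∀ i ∈ S, a i ∈ N) ∧ ∀ i ∉ S, (a i).natAbs ≤ G ^ k)) := by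
    intro a ha
    have ha' := mem_facs.mp ha
    rw [Finset.mem_biUnion]
    refine ⟨Finset.univ.filter (fun i => ¬ (a i).natAbs ≤ G ^ k), Finset.mem_univ _, ?_⟩
    rw [Finset.mem_filter]
    refine ⟨ha, ?_, ?_⟩
    · intro i hi
      have hi' := (Finset.mem_filter.mp hi).2
      have hd : a i ∣ ∏ j, c j := by
        rw [hc'.2, ← ha'.2]
        exact Finset.dvd_prod_of_mem _ (Finset.mem_univ i)
      rcases small_or_close k c (a i) G (by rw [hc'.2]; exact hu) hd with h | ⟨j, hj⟩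
      · exact absurd h hi'
      · rw [hN, Finset.mem_biUnion]
        exact ⟨j, Finset.mem_univ _, Finset.mem_filter.mpr ⟨ha'.1 i, hj⟩⟩
    · intro i hi
      by_contra hcon
      exact hi (Finset.mem_filter.mpr ⟨Finset.mem_univ _, hcon⟩)
  refine (Finset.card_le_card hcov).trans (Finset.card_biUnion_le.trans ?_)
  calc ∑ S : Finset (Fin k), ((facs k A u).filter
        (fun a => (∀ i ∈ S, a i ∈ N) ∧ ∀ i ∉ S, (a i).natAbs ≤ G ^ k)).card
      ≤ ∑ _S : Finset (Fin k), ((2 * L) ^ k * (k * K) ^ (k - 1)) := by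
        apply Finset.sum_le_sum
        intro S _
        by_cases hS : S.card < k
        · exact card_RS k A N u hu (G ^ k) L (k * K) hB hNc hkK hL S hS
        · have hSu : S = Finset.univ := by
            apply Finset.eq_univ_of_card
            have := Finset.card_le_univ S
            simp at this ⊢
            omega
          have h1 := card_Runiv k hk A N u hu (k * K) hNc
          have h2 : ((facs k A u).filter
              (fun a => (∀ i ∈ S, a i ∈ N) ∧ ∀ i ∉ S, (a i).natAbs ≤ G ^ k)).card ≤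
              ((facs k A u).filter (fun a => ∀ i, a i ∈ N)).card := by
            apply Finset.card_le_card
            intro a ha
            rw [Finset.mem_filter] at ha ⊢
            refine ⟨ha.1, fun i => ha.2.1 i (by rw [hSu]; exact Finset.mem_univ i)⟩
          refine h2.trans (h1.trans ?_)
          have h3 : 1 ≤ (2 * L) ^ k := Nat.one_le_pow _ _ (by omega)
          calc (k * K) ^ (k - 1) = 1 * (k * K) ^ (k - 1) := (one_mul _).symm
            _ ≤ (2 * L) ^ k * (k * K) ^ (k - 1) := Nat.mul_le_mul_right _ h3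
    _ = 2 ^ k * ((2 * L) ^ k * (k * K) ^ (k - 1)) := by
        rw [Finset.sum_const, Finset.card_univ, Fintype.card_finset, Fintype.card_fin, smul_eq_mul]

/-- the pointwise bound -/
lemma pointwise (k : ℕ) (hk : 1 ≤ k) (ε : ℝ) (hε : 0 < ε) : ∃ M : ℝ, 0 < M ∧
    ∀ (A : Finset ℤ) (G K : ℕ), 1 ≤ G → 1 ≤ K →
      (∀ a ∈ A, (A.filter (fun c => G < Int.gcd a c)).card ≤ K) →
      ∀ u : ℤ, u ≠ 0 → ((facs k A u).card : ℝ) ≤ M * (K : ℝ) ^ (k - 1) * (G : ℝ) ^ ε := by
  have hk0 : (0 : ℝ) < k := by exact_mod_cast hk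
  set e : ℝ := ε / ((k : ℝ) ^ 3) with he
  have he0 : 0 < e := by positivity
  obtain ⟨M₀, hM₀, hdiv⟩ := divisor_bound e he0
  refine ⟨2 ^ k * ((2 * M₀) ^ k * (k : ℝ) ^ (k - 1)), by positivity, ?_⟩
  intro A G K hG hK hA u hu
  have hG0 : (0 : ℝ) < G := by exact_mod_cast hG
  set X : ℝ := M₀ * (((G : ℝ) ^ k) ^ k) ^ e with hX
  have hX0 : 0 ≤ X := by positivity
  set L : ℕ := ⌊X⌋₊ with hLdef
  have hL : ∀ m : ℕ, 1 ≤ m → m ≤ (G ^ k) ^ k → m.divisors.card ≤ L := by
    intro m hm1 hm2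
    apply Nat.le_floor
    refine (hdiv m (by omega)).trans ?_
    apply mul_le_mul_of_nonneg_left _ hM₀.le
    apply Real.rpow_le_rpow (by positivity) _ he0.le
    exact_mod_cast hm2
  have h1 := card_facs_le k hk A u hu G K L hG hK hA hL
  have h2 : ((facs k A u).card : ℝ) ≤ 2 ^ k * ((2 * (L : ℝ)) ^ k * ((k : ℝ) * K) ^ (k - 1)) := by
    exact_mod_cast h1
  have hLX : (L : ℝ) ≤ X := Nat.floor_le hX0
  have h3 : (2 * (L : ℝ)) ^ k ≤ (2 * M₀) ^ k * (G : ℝ) ^ ε := by
    calc (2 * (L : ℝ)) ^ k ≤ (2 * X) ^ k := pow_le_pow_left₀ (by positivity) (by linarith) _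
      _ = (2 * M₀) ^ k * ((((G : ℝ) ^ k) ^ k) ^ e) ^ k := by
          rw [hX, ← mul_assoc, mul_pow]
      _ = (2 * M₀) ^ k * (G : ℝ) ^ ε := by
          congr 1
          rw [← pow_mul, ← Real.rpow_natCast (G : ℝ) (k * k), ← Real.rpow_mul hG0.le,
            ← Real.rpow_natCast _ k, ← Real.rpow_mul hG0.le]
          congr 1
          rw [he]
          push_cast
          field_simp
  calc ((facs k A u).card : ℝ) ≤ 2 ^ k * ((2 * (L : ℝ)) ^ k * ((k : ℝ) * K) ^ (k - 1)) := h2
    _ ≤ 2 ^ k * (((2 * M₀) ^ k * (G : ℝ) ^ ε) * ((k : ℝ) * K) ^ (k - 1)) := by gcongr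
    _ = 2 ^ k * ((2 * M₀) ^ k * (k : ℝ) ^ (k - 1)) * (K : ℝ) ^ (k - 1) * (G : ℝ) ^ ε := by
        rw [mul_pow]; ring

/-- from the pointwise bound to sets of tuples -/
lemma graph_bound (k : ℕ) (A : Finset ℤ) (h0 : (0 : ℤ) ∉ A) (X : ℝ)
    (hX : ∀ u : ℤ, u ≠ 0 → ((facs k A u).card : ℝ) ≤ X)
    (H : Finset (Fin k → ℤ)) (hH : H ⊆ Fintype.piFinset (fun _ : Fin k => A)) :
    (H.card : ℝ) ≤ X * (H.image (fun a => ∏ i, a i)).card := by
  classical
  have h1 : H.card = ∑ u ∈ H.image (fun a => ∏ i, a i), (H.filter (fun a => ∏ i, a i = u)).card :=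
    Finset.card_eq_sum_card_image _ _
  rw [h1]
  push_cast
  calc ∑ u ∈ H.image (fun a => ∏ i, a i), ((H.filter (fun a => ∏ i, a i = u)).card : ℝ)
      ≤ ∑ _u ∈ H.image (fun a => ∏ i, a i), X := by
        apply Finset.sum_le_sum
        intro u hu
        obtain ⟨a, ha, hau⟩ := Finset.mem_image.mp hu
        have hu0 : u ≠ 0 := by
          rw [← hau]
          apply Finset.prod_ne_zero_iff.mpr
          intro i _ hi
          apply h0
          rw [← hi]
          exact Fintype.mem_piFinset.mp (hH ha) i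
        refine le_trans ?_ (hX u hu0)
        exact_mod_cast Finset.card_le_card (Finset.filter_subset_filter _ hH)
    _ = X * (H.image (fun a => ∏ i, a i)).card := by
        rw [Finset.sum_const, nsmul_eq_mul, mul_comm]

/-- the number of pairs of equal elements or elements with common divisor above `G` -/
def pairs (A : Finset ℤ) (G : ℕ) : Finset (ℤ × ℤ) :=
  (A ×ˢ A).filter (fun p => p.1 = p.2 ∨ G < Int.gcd p.1 p.2)

/-- the set of the `k`-fold products -/
def prods (k : ℕ) (A : Finset ℤ) : Finset ℤ :=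
  (Fintype.piFinset (fun _ : Fin k => A)).image (fun a => ∏ i, a i)

lemma average (k : ℕ) (hk : 1 ≤ k) (M X : ℝ) (hM : 0 < M) (hX : 0 < X) (A : Finset ℤ) (G : ℕ)
    (h0 : (0 : ℤ) ∉ A)
    (hpt : ∀ (B : Finset ℤ) (K : ℕ), 1 ≤ K →
      (∀ a ∈ B, (B.filter (fun c => G < Int.gcd a c)).card ≤ K) →
      ∀ u : ℤ, u ≠ 0 → ((facs k B u).card : ℝ) ≤ M * (K : ℝ) ^ (k - 1) * X) :
    (A.card : ℝ) ^ (2 * k - 1) ≤
      2 ^ (2 * k - 1) * M * ((pairs A G).card : ℝ) ^ (k - 1) * X * (prods k A).card := by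
  classical
  rcases A.eq_empty_or_nonempty with he | hne
  · subst he
    have : (0 : ℝ) ^ (2 * k - 1) = 0 := zero_pow (by omega)
    rw [Finset.card_empty, Nat.cast_zero, this]
    positivity
  set n := A.card with hn
  have hn1 : 1 ≤ n := Finset.card_pos.mpr hne
  set P := (pairs A G).card with hP
  set deg : ℤ → ℕ := fun a => (A.filter (fun c => a = c ∨ G < Int.gcd a c)).card with hdeg
  have hsum : ∑ a ∈ A, deg a = P := by
    rw [hP, pairs, Finset.card_filter, Finset.sum_product]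
    apply Finset.sum_congr rfl
    intro a _
    rw [hdeg]
    simp only
    rw [Finset.card_filter]
  have hPn : n ≤ P := by
    rw [← hsum]
    calc n = ∑ _a ∈ A, 1 := by simp [hn]
      _ ≤ ∑ a ∈ A, deg a := by
          apply Finset.sum_le_sum
          intro a ha
          apply Finset.card_pos.mpr
          exact ⟨a, Finset.mem_filter.mpr ⟨ha, Or.inl rfl⟩⟩
  set A' := A.filter (fun a => deg a * n ≤ 2 * P) with hA'
  have hA'c : n ≤ 2 * A'.card := by
    have h1 : (A.filter (fun a => ¬ deg a * n ≤ 2 * P)).card * (2 * P) ≤ n * P := by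
      calc (A.filter (fun a => ¬ deg a * n ≤ 2 * P)).card * (2 * P)
          = ∑ _a ∈ A.filter (fun a => ¬ deg a * n ≤ 2 * P), 2 * P := by simp
        _ ≤ ∑ a ∈ A.filter (fun a => ¬ deg a * n ≤ 2 * P), deg a * n := by
            apply Finset.sum_le_sum
            intro a ha
            exact (not_le.mp (Finset.mem_filter.mp ha).2).le
        _ ≤ ∑ a ∈ A, deg a * n :=
            Finset.sum_le_sum_of_subset (Finset.filter_subset _ _)
        _ = n * P := by rw [← Finset.sum_mul, hsum, mul_comm]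
    have h2 : A'.card + (A.filter (fun a => ¬ deg a * n ≤ 2 * P)).card = n :=
      Finset.card_filter_add_card_filter_not _
    have hP1 : 0 < P := by omega
    have h3 : (A.filter (fun a => ¬ deg a * n ≤ 2 * P)).card * 2 ≤ n := by
      by_contra hcon
      rw [not_le] at hcon
      have : n * P < (A.filter (fun a => ¬ deg a * n ≤ 2 * P)).card * 2 * P :=
        Nat.mul_lt_mul_of_pos_right hcon hP1
      have h4 : (A.filter (fun a => ¬ deg a * n ≤ 2 * P)).card * 2 * P
          = (A.filter (fun a => ¬ deg a * n ≤ 2 * P)).card * (2 * P) := by ring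
      omega
    omega
  set K := 2 * P / n with hK
  have hK1 : 1 ≤ K := by
    rw [hK, Nat.one_le_div_iff (by omega)]
    omega
  have hdegK : ∀ a ∈ A', (A'.filter (fun c => G < Int.gcd a c)).card ≤ K := by
    intro a ha
    have h1 : (A'.filter (fun c => G < Int.gcd a c)).card ≤ deg a := by
      apply Finset.card_le_card
      intro c hc
      rw [Finset.mem_filter] at hc ⊢
      exact ⟨(Finset.mem_filter.mp hc.1).1, Or.inr hc.2⟩
    refine h1.trans ?_
    rw [hK, Nat.le_div_iff_mul_le (by omega)]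
    exact (Finset.mem_filter.mp ha).2
  have h0' : (0 : ℤ) ∉ A' := fun h => h0 (Finset.mem_filter.mp h).1
  have hmain := graph_bound k A' h0' (M * (K : ℝ) ^ (k - 1) * X) (hpt A' K hK1 hdegK)
    (Fintype.piFinset (fun _ : Fin k => A')) (Finset.Subset.refl _)
  have hcardpi : ((Fintype.piFinset (fun _ : Fin k => A')).card : ℝ) = (A'.card : ℝ) ^ k := by
    rw [Fintype.card_piFinset]
    simp
  rw [hcardpi] at hmain
  have himg : (((Fintype.piFinset (fun _ : Fin k => A')).image (fun a => ∏ i, a i)).card : ℝ)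
      ≤ (prods k A).card := by
    apply Nat.cast_le.mpr
    apply Finset.card_le_card
    apply Finset.image_subset_image
    apply Fintype.piFinset_subset
    intro i
    exact Finset.filter_subset _ _
  have hn0 : (0 : ℝ) < n := by exact_mod_cast hn1
  have hKr : (K : ℝ) ≤ 2 * P / n := by
    rw [le_div_iff₀ hn0]
    have : K * n ≤ 2 * P := Nat.div_mul_le_self _ _
    exact_mod_cast this
  have hA'r : (n : ℝ) / 2 ≤ A'.card := by
    have : (n : ℝ) ≤ 2 * A'.card := by exact_mod_cast hA'c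
    linarith
  have h5 : ((n : ℝ) / 2) ^ k ≤ M * (2 * P / n) ^ (k - 1) * X * (prods k A).card := by
    calc ((n : ℝ) / 2) ^ k ≤ (A'.card : ℝ) ^ k := pow_le_pow_left₀ (by positivity) hA'r _
      _ ≤ _ := hmain
      _ ≤ M * (2 * P / n) ^ (k - 1) * X * (prods k A).card := by
          gcongr
  have h6 : (n : ℝ) ^ (2 * k - 1) = ((n : ℝ) / 2) ^ k * (2 ^ k * (n : ℝ) ^ (k - 1)) := by
    have : 2 * k - 1 = k + (k - 1) := by omega
    rw [this, pow_add, div_pow]
    field_simp
  rw [h6]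
  calc ((n : ℝ) / 2) ^ k * (2 ^ k * (n : ℝ) ^ (k - 1))
      ≤ (M * (2 * P / n) ^ (k - 1) * X * (prods k A).card) * (2 ^ k * (n : ℝ) ^ (k - 1)) := by
        gcongr
    _ = 2 ^ (2 * k - 1) * M * (P : ℝ) ^ (k - 1) * X * (prods k A).card := by
        have : 2 * k - 1 = k + (k - 1) := by omega
        rw [this, pow_add, div_pow, mul_pow]
        field_simp

/-- the exponent form -/
lemma exponent_form (k : ℕ) (hk : 1 ≤ k) (C δ ε : ℝ) (hC : 0 ≤ C) (hδ : 0 ≤ δ) (hε : 0 < ε) :
    ∃ c : ℝ, 0 < c ∧ ∀ A : Finset ℤ, A.Nonempty → (0 : ℤ) ∉ A →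
      ((((A ×ˢ A).filter (fun p => (A.card : ℝ) ^ C < (Int.gcd p.1 p.2 : ℝ))).card : ℝ)
        ≤ (A.card : ℝ) ^ (1 + δ)) →
      c * (A.card : ℝ) ^ ((k : ℝ) - (k - 1) * δ - ε) ≤ (prods k A).card := by
  classical
  set e : ℝ := ε / (C + 1) with he
  have he0 : 0 < e := by positivity
  obtain ⟨M, hM, hpt⟩ := pointwise k hk e he0
  refine ⟨1 / (2 ^ (2 * k - 1) * M * 2 ^ (k - 1)), by positivity, ?_⟩
  intro A hne h0 hA
  set n := A.card with hn
  have hn1 : 1 ≤ n := Finset.card_pos.mpr hne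
  have hnr : (1 : ℝ) ≤ n := by exact_mod_cast hn1
  have hn0 : (0 : ℝ) < n := by linarith
  set G : ℕ := ⌊(n : ℝ) ^ C⌋₊ with hG
  have hnC : (1 : ℝ) ≤ (n : ℝ) ^ C := Real.one_le_rpow hnr hC
  have hG1 : 1 ≤ G := by
    rw [hG]
    apply Nat.le_floor
    simpa using hnC
  have hG0 : (0 : ℝ) < G := by exact_mod_cast hG1
  have hGn : (G : ℝ) ≤ (n : ℝ) ^ C := Nat.floor_le (by positivity)
  have hav := average k hk M ((G : ℝ) ^ e) hM (by positivity) A G h0
    (fun B K hK hB u hu => hpt B G K hG1 hK hB u hu)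
  have hPle : ((pairs A G).card : ℝ) ≤ 2 * (n : ℝ) ^ (1 + δ) := by
    have h1 : pairs A G ⊆ A.image (fun a => (a, a)) ∪
        (A ×ˢ A).filter (fun p => (n : ℝ) ^ C < (Int.gcd p.1 p.2 : ℝ)) := by
      intro p hp
      obtain ⟨hpA, hp2⟩ := Finset.mem_filter.mp hp
      rw [Finset.mem_union]
      rcases hp2 with h | h
      · left
        rw [Finset.mem_image]
        exact ⟨p.1, (Finset.mem_product.mp hpA).1, Prod.ext rfl h⟩
      · right
        rw [Finset.mem_filter]
        refine ⟨hpA, ?_⟩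
        have h2 : (n : ℝ) ^ C < (G : ℝ) + 1 := Nat.lt_floor_add_one _
        have h3 : (G : ℝ) + 1 ≤ (Int.gcd p.1 p.2 : ℝ) := by exact_mod_cast h
        linarith
    have h2 : (pairs A G).card ≤ n +
        ((A ×ˢ A).filter (fun p => (n : ℝ) ^ C < (Int.gcd p.1 p.2 : ℝ))).card :=
      (Finset.card_le_card h1).trans ((Finset.card_union_le _ _).trans
        (Nat.add_le_add_right Finset.card_image_le _))
    have h3 : ((pairs A G).card : ℝ) ≤ n +
        (((A ×ˢ A).filter (fun p => (n : ℝ) ^ C < (Int.gcd p.1 p.2 : ℝ))).card : ℝ) := by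
      exact_mod_cast h2
    have h4 : (n : ℝ) ≤ (n : ℝ) ^ (1 + δ) := by
      calc (n : ℝ) = (n : ℝ) ^ (1 : ℝ) := (Real.rpow_one _).symm
        _ ≤ (n : ℝ) ^ (1 + δ) := Real.rpow_le_rpow_of_exponent_le hnr (by linarith)
    linarith
  have hGe : (G : ℝ) ^ e ≤ (n : ℝ) ^ ε := by
    calc (G : ℝ) ^ e ≤ ((n : ℝ) ^ C) ^ e := Real.rpow_le_rpow hG0.le hGn he0.le
      _ = (n : ℝ) ^ (C * e) := (Real.rpow_mul hn0.le _ _).symm
      _ ≤ (n : ℝ) ^ ε := by
          apply Real.rpow_le_rpow_of_exponent_le hnr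
          rw [he, mul_div_assoc']
          rw [div_le_iff₀ (by linarith)]
          nlinarith
  have h7 : (n : ℝ) ^ (2 * k - 1) ≤ 2 ^ (2 * k - 1) * M * (2 * (n : ℝ) ^ (1 + δ)) ^ (k - 1) *
      (n : ℝ) ^ ε * (prods k A).card := by
    refine hav.trans ?_
    gcongr
  have hkk : ((k - 1 : ℕ) : ℝ) = (k : ℝ) - 1 := by
    rw [Nat.cast_sub hk]; simp
  have h8 : (n : ℝ) ^ (2 * k - 1) = (n : ℝ) ^ ((k : ℝ) - (k - 1) * δ - ε) *
      (((n : ℝ) ^ (1 + δ)) ^ (k - 1) * (n : ℝ) ^ ε) := by
    rw [← Real.rpow_natCast (n : ℝ) (2 * k - 1), ← Real.rpow_natCast ((n : ℝ) ^ (1 + δ)) (k - 1),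
      ← Real.rpow_mul hn0.le, ← Real.rpow_add hn0, ← Real.rpow_add hn0]
    congr 1
    have : ((2 * k - 1 : ℕ) : ℝ) = 2 * (k : ℝ) - 1 := by
      rw [Nat.cast_sub (by omega)]; push_cast; ring
    rw [this, hkk]
    ring
  rw [h8, mul_pow] at h7
  have hY : 0 < ((n : ℝ) ^ (1 + δ)) ^ (k - 1) * (n : ℝ) ^ ε := by positivity
  have h9 : (n : ℝ) ^ ((k : ℝ) - (k - 1) * δ - ε) ≤
      (2 ^ (2 * k - 1) * M * 2 ^ (k - 1)) * (prods k A).card := by
    have : (n : ℝ) ^ ((k : ℝ) - (k - 1) * δ - ε) *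
        (((n : ℝ) ^ (1 + δ)) ^ (k - 1) * (n : ℝ) ^ ε) ≤
        ((2 ^ (2 * k - 1) * M * 2 ^ (k - 1)) * (prods k A).card) *
        (((n : ℝ) ^ (1 + δ)) ^ (k - 1) * (n : ℝ) ^ ε) := by
      refine h7.trans (le_of_eq ?_)
      ring
    exact le_of_mul_le_mul_right this hY
  rw [one_div, inv_mul_le_iff₀ (by positivity)]
  exact h9

/-- Sets of integers in which few pairs have a large common divisor have many `k`-fold products. -/
theorem result (k : ℕ) (hk : 1 ≤ k) :
    (∀ ε : ℝ, 0 < ε → ∃ M : ℝ, 0 < M ∧ ∀ A : Finset ℤ, (0 : ℤ) ∉ A → ∀ G : ℕ, 1 ≤ G →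
      (∀ K : ℕ, 1 ≤ K → (∀ a ∈ A, (A.filter (fun c => G < Int.gcd a c)).card ≤ K) →
        (∀ u : ℤ, u ≠ 0 →
          (((Fintype.piFinset (fun _ : Fin k => A)).filter (fun a => ∏ i, a i = u)).card : ℝ)
            ≤ M * (K : ℝ) ^ (k - 1) * (G : ℝ) ^ ε) ∧
        (∀ H ⊆ Fintype.piFinset (fun _ : Fin k => A),
          (H.card : ℝ) ≤ M * (K : ℝ) ^ (k - 1) * (G : ℝ) ^ ε *
            (H.image (fun a => ∏ i, a i)).card)) ∧
      (A.card : ℝ) ^ (2 * k - 1) ≤
        M * (((A ×ˢ A).filter (fun p => p.1 = p.2 ∨ G < Int.gcd p.1 p.2)).card : ℝ) ^ (k - 1) *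
          (G : ℝ) ^ ε *
          ((Fintype.piFinset (fun _ : Fin k => A)).image (fun a => ∏ i, a i)).card) ∧
    (∀ C δ ε : ℝ, 0 ≤ C → 0 ≤ δ → 0 < ε → ∃ c : ℝ, 0 < c ∧ ∀ A : Finset ℤ, A.Nonempty →
      (0 : ℤ) ∉ A →
      ((((A ×ˢ A).filter (fun p => (A.card : ℝ) ^ C < (Int.gcd p.1 p.2 : ℝ))).card : ℝ)
        ≤ (A.card : ℝ) ^ (1 + δ)) →
      c * (A.card : ℝ) ^ ((k : ℝ) - (k - 1) * δ - ε) ≤
        ((Fintype.piFinset (fun _ : Fin k => A)).image (fun a => ∏ i, a i)).card) := by
  classical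
  refine ⟨?_, fun C δ ε hC hδ hε => exponent_form k hk C δ ε hC hδ hε⟩
  intro ε hε
  obtain ⟨M, hM, hpt⟩ := pointwise k hk ε hε
  have h2 : (1 : ℝ) ≤ 2 ^ (2 * k - 1) := one_le_pow₀ (by norm_num)
  refine ⟨2 ^ (2 * k - 1) * M, by positivity, ?_⟩
  intro A h0 G hG
  have hG0 : (0 : ℝ) < G := by exact_mod_cast hG
  have hMM : M ≤ 2 ^ (2 * k - 1) * M := by nlinarith
  refine ⟨?_, average k hk M ((G : ℝ) ^ ε) hM (by positivity) A G h0
    (fun B K hK hB u hu => hpt B G K hG hK hB u hu)⟩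
  intro K hK hA
  have hpt' : ∀ u : ℤ, u ≠ 0 →
      ((facs k A u).card : ℝ) ≤ 2 ^ (2 * k - 1) * M * (K : ℝ) ^ (k - 1) * (G : ℝ) ^ ε := by
    intro u hu
    refine (hpt A G K hG hK hA u hu).trans ?_
    gcongr
  exact ⟨hpt', fun H hH => graph_bound k A h0 _ hpt' H hH⟩

end Pool.Agent.Results.MP_120218_co.FewLargeGcds
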