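import Pool.Agent.V11271.DB.Cor

/-!
# An iterated sumset grows, or every nonzero integer has few factorisations

Let `A 1, ..., A k` be finite sets of integers and `2 ≤ m ≤ log |A i|` for all `i`. Either one of the
`m`-fold sumsets has at least `|A i| ^ (1 + c log m)` elements, or EVERY nonzero integer `u` has at most
`C ∏ |A i| ^ ε` factorisations `u = a 1 * ... * a k` with `a i ∈ A i`; then every set `H` of tuples with
nonzero product, however sparse, has at least `c |H| / ∏ |A i| ^ ε` different products.

The starting file `GrowthOrProducts` of this problem is the case `A 1 = ... = A k`, `H` the set of all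
tuples. The proof adapts the unused theorem `Pool.Agent.Y359.DB.growth_fac` (one set) of the starting
library and rests on its divisor bound for sets with few sums (`Pool.Agent.Y359.DB.divisor_log`).
-/

set_option autoImplicit false

namespace Pool.Agent.Results.MP_120218_co.GrowthOrFewFactorisations

theorem result (k : ℕ) (hk : 1 ≤ k) (ε : ℝ) (hε : 0 < ε) :
    ∃ c : ℝ, 0 < c ∧ ∀ A : Fin k → Finset ℤ, (∀ i, (A i).Nonempty) → ∀ m : ℕ, 2 ≤ m →
      (∀ i, (m : ℝ) ≤ Real.log (A i).card) →
      ((∀ u : ℤ, u ≠ 0 →
          c * (((Fintype.piFinset A).filter fun f => ∏ i, f i = u).card : ℝ) ≤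
            ∏ i, ((A i).card : ℝ) ^ ε) ∧
        ∀ H : Finset (Fin k → ℤ), (∀ f ∈ H, (∀ i, f i ∈ A i) ∧ ∏ i, f i ≠ 0) →
          c * (H.card : ℝ) ≤
            (∏ i, ((A i).card : ℝ) ^ ε) * ((H.image fun f => ∏ i, f i).card : ℝ)) ∨
        ∃ i, ((A i).card : ℝ) ^ (1 + c * Real.log m) ≤
          ((Fintype.piFinset fun _ : Fin m => A i).image fun f => ∑ j, f j).card :=
  Pool.Agent.V11271.DB.growth_multi k hk ε hε

end Pool.Agent.Results.MP_120218_co.GrowthOrFewFactorisations
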