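import Pool.Agent.V11248.KF.K25

/-!
# The Erdos-Szemeredi problem for k-fold sums and products: better exponents for every `k ≥ 2`
-/

set_option autoImplicit false

namespace Pool.Agent.Results.MP_120218_co.KFoldSharper

open Pool.Agent.W798.KF Pool.Agent.V11248.KF

/-- The exponents: `e_2 = 680/507` and, for `k ≥ 3`, with `t = 2^(k-2)`,
`e_k = (8046 t² - 5152 t + 500)/(t (5364 t - 2835))`
(`e_3 = 3730/2631`, `e_4 = 27157/18621`, ..., limit `3/2`). -/
noncomputable def expo (k : ℕ) : ℝ :=
  if k = 2 then 680 / 507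
  else (8046 * (2 ^ (k - 2)) ^ 2 - 5152 * 2 ^ (k - 2) + 500) /
    (2 ^ (k - 2) * (5364 * 2 ^ (k - 2) - 2835))

theorem real_bound (j : ℕ) (κ : ℝ) (hκ : κ < expo (j + 2)) : ∃ c : ℝ, 0 < c ∧
    ∀ A : Finset ℝ, A.Nonempty → c * (A.card : ℝ) ^ κ ≤
      max ((sm A (j + 1)).card : ℝ) ((pr A (j + 1)).card : ℝ) := by
  rcases Nat.eq_zero_or_pos j with rfl | hj
  · have h1 : expo (0 + 2) = 680 / 507 := by
      unfold expo
      norm_num
    exact k2 κ (by rw [← h1]; exact hκ)
  · have h1 : expo (j + 2) = ex5 j := by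
      unfold expo ex5
      have : j + 2 - 2 = j := by omega
      rw [if_neg (by omega), this]
    exact k3 j hj κ (by rw [← h1]; exact hκ)

/-- For every `k ≥ 2` and every `κ < e_k` there is `c > 0` such that for every commutative ring `R`
which embeds in the reals (such as `ℤ`) every finite nonempty subset `A` of `R` has at least
`c |A|^κ` sums of `k` elements or at least `c |A|^κ` products of `k` elements. -/
theorem result : ∀ k : ℕ, 2 ≤ k → ∀ κ : ℝ, κ < expo k →
    ∃ c : ℝ, 0 < c ∧
      ∀ (R : Type) [CommRing R] [DecidableEq R] (f : R →+* ℝ), Function.Injective f →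
        ∀ A : Finset R, A.Nonempty →
          c * (A.card : ℝ) ^ κ ≤
            max
              (((Fintype.piFinset (fun _ : Fin k => A)).image
                  (fun g : Fin k → R => ∑ i, g i)).card : ℝ)
              (((Fintype.piFinset (fun _ : Fin k => A)).image
                  (fun g : Fin k → R => ∏ i, g i)).card : ℝ) := by
  intro k hk κ hκ
  obtain ⟨j, rfl⟩ : ∃ j, k = j + 2 := ⟨k - 2, by omega⟩
  obtain ⟨c, hc, H⟩ := real_bound j κ hκ
  refine ⟨c, hc, ?_⟩
  intro R _ _ f hf A hA
  obtain ⟨h1, h2⟩ := pIM R f hf A (j + 1)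
  have h3 := H (A.image f) (hA.image f)
  rw [Finset.card_image_of_injective _ hf, h1, h2] at h3
  exact h3

end Pool.Agent.Results.MP_120218_co.KFoldSharper
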