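import Mathlib
import Pool.Agent.Y359.PE.Runs

/-!
# `k`-fold product sets of unions of long runs, and of shifts of arbitrary finite sets of integers

Let `k ≥ 1` and `ε > 0`.

1. For every `K ≥ 1` there are `L`, `c > 0` such that every nonempty finite set `A` of integers in which
   the multiples of each prime power `q` form at most the proportion `K / q + 1 / L` has at least
   `c |A| ^ (k - ε)` products of `k` elements.
2. For every `D ≥ 1` there are `L`, `c > 0` such that this holds for every set `A` which is a union of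
   arithmetic progressions of at least `L` terms, each with coprime first term and difference, no element
   being in more than `D` of them; in particular (runs) for every set `A` which is a union of runs of `L`
   consecutive integers, for instance `A = S + {0, 1, ..., L - 1}` with an ARBITRARY finite set `S`.
3. There are `L`, `c > 0` such that for every nonempty finite set `S` of integers, without any condition,
   there are `t_1, ..., t_k` with `0 ≤ t_i < L` such that the product set
   `(S + t_1) (S + t_2) ... (S + t_k)` has at least `c |S| ^ (k - ε)` elements.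

The statements are theorems of the starting library (`Pool.Agent.Y359.PE.Pow` and
`Pool.Agent.Y359.PE.Runs`), not used by any starting hand-in; the case `k = 2` is in the starting
hand-in `MP_cc0731_co.PopularPrimesTwoSets`.
-/

set_option autoImplicit false

namespace Pool.Agent.Results.MP_120218_co.RunsAndShifts

open Finset

open Classical in
/-- **Almost maximal `k`-fold product sets.** -/
theorem result (k : ℕ) (hk : 1 ≤ k) (ε : ℝ) (hε : 0 < ε) :
    -- 1: every prime power divides few elements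
    (∀ K : ℝ, 1 ≤ K → ∃ L c : ℝ, 1 ≤ L ∧ 0 < c ∧ ∀ A : Finset ℤ, A.Nonempty →
      (∀ q : ℕ, IsPrimePow q →
        ((A.filter fun a : ℤ => (q : ℤ) ∣ a).card : ℝ) ≤ (K / q + 1 / L) * A.card) →
      c * (A.card : ℝ) ^ ((k : ℝ) - ε) ≤
        (((Fintype.piFinset fun _ : Fin k => A).image fun f => ∏ i, f i).card : ℝ)) ∧
    -- 2: unions of long primitive progressions
    (∀ D : ℕ, 1 ≤ D → ∃ (L : ℕ) (c : ℝ), 1 ≤ L ∧ 0 < c ∧
      ∀ (A : Finset ℤ) (ι : Type) (I : Finset ι) (a d : ι → ℤ) (n : ι → ℕ), A.Nonempty →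
      (∀ i ∈ I, d i ≠ 0 ∧ IsCoprime (a i) (d i) ∧ L ≤ n i) →
      (∀ x, x ∈ A ↔ ∃ i ∈ I, ∃ j < n i, x = a i + j * d i) →
      (∀ x ∈ A, (I.filter fun i => ∃ j < n i, x = a i + j * d i).card ≤ D) →
      c * (A.card : ℝ) ^ ((k : ℝ) - ε) ≤
        (((Fintype.piFinset fun _ : Fin k => A).image fun f => ∏ i, f i).card : ℝ)) ∧
    -- 2': unions of runs of `L` consecutive integers
    (∃ (L : ℕ) (c : ℝ), 1 ≤ L ∧ 0 < c ∧ ∀ A : Finset ℤ, A.Nonempty →
      (∀ a ∈ A, ∃ b : ℤ, b ≤ a ∧ a < b + L ∧ Ico b (b + L) ⊆ A) →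
      c * (A.card : ℝ) ^ ((k : ℝ) - ε) ≤
        (((Fintype.piFinset fun _ : Fin k => A).image fun f => ∏ i, f i).card : ℝ)) ∧
    -- 3: bounded shifts of an arbitrary finite set
    (∃ (L : ℕ) (c : ℝ), 0 < c ∧ ∀ S : Finset ℤ, S.Nonempty → ∃ t : Fin k → ℕ, (∀ i, t i < L) ∧
      c * (S.card : ℝ) ^ ((k : ℝ) - ε) ≤
        (((Fintype.piFinset fun _ : Fin k => S).image fun f =>
          ∏ i, (f i + (t i : ℤ))).card : ℝ)) := by
  have hm : 0 < min ε 1 := lt_min hε one_pos
  have hm1 : min ε 1 ≤ 1 := min_le_right _ _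
  have key : ∀ A : Finset ℤ, A.Nonempty →
      (A.card : ℝ) ^ ((k : ℝ) - ε) ≤ (A.card : ℝ) ^ ((k : ℝ) - min ε 1) := by
    intro A hA
    refine Real.rpow_le_rpow_of_exponent_le ?_ ?_
    · exact_mod_cast Finset.card_pos.2 hA
    · have := min_le_left ε 1
      linarith
  refine ⟨?_, ?_, ?_, ?_⟩
  · intro K hK
    obtain ⟨L, c, hL, hc, h⟩ := Pool.Agent.Y359.PE.primepow k hk K (min ε 1) hK hm hm1
    refine ⟨L, c, hL, hc, fun A hA hq => ?_⟩
    refine (mul_le_mul_of_nonneg_left (key A hA) hc.le).trans ?_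
    have h1 := h A hA (fun q hq' => by convert hq q hq')
    unfold Pool.Agent.Y359.PE.pk at h1
    convert h1
  · intro D hD
    obtain ⟨L, c, hL, hc, h⟩ := Pool.Agent.Y359.PE.progs k hk D hD (min ε 1) hm hm1
    refine ⟨L, c, hL, hc, fun A ι I a d n hA h1 h2 h3 => ?_⟩
    refine (mul_le_mul_of_nonneg_left (key A hA) hc.le).trans ?_
    have h4 := h A ι I a d n hA h1 h2 (fun x hx => by convert h3 x hx)
    unfold Pool.Agent.Y359.PE.pk at h4
    convert h4
  · obtain ⟨L, c, hL, hc, h⟩ := Pool.Agent.Y359.PE.runs k hk (min ε 1) hm hm1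
    refine ⟨L, c, hL, hc, fun A hA hr => ?_⟩
    refine (mul_le_mul_of_nonneg_left (key A hA) hc.le).trans ?_
    have h1 := h A hA hr
    unfold Pool.Agent.Y359.PE.pk at h1
    convert h1
  · obtain ⟨L, c, hc, h⟩ := Pool.Agent.Y359.PE.shifts k hk (min ε 1) hm hm1
    refine ⟨L, c, hc, fun S hS => ?_⟩
    obtain ⟨t, ht, h1⟩ := h S hS
    refine ⟨t, ht, (mul_le_mul_of_nonneg_left (key S hS) hc.le).trans ?_⟩
    convert h1

end Pool.Agent.Results.MP_120218_co.RunsAndShifts
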